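import Pool.Agent.Helper28.NO.Goals
import Mathlib.Analysis.Real.Pi.Wallis
import Mathlib.Analysis.Real.Pi.Bounds

/-!
# Packet W for MP_705522_gt (helper28): `GW`
-/

namespace Pool.Agent.Helper31.NO

open Pool.Agent.Helper28.NO Filter Topology

theorem bb_succ (j : ℕ) : bb (j + 1) = bb j * ((2 * j + 1) / (2 * j + 2)) := by
  unfold bb
  have h := Nat.succ_mul_centralBinom_succ j
  have h' : ((j : ℝ) + 1) * (Nat.centralBinom (j + 1) : ℝ)
      = 2 * (2 * (j : ℝ) + 1) * (Nat.centralBinom j : ℝ) := by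
    exact_mod_cast h
  have hj : (0 : ℝ) < (j : ℝ) + 1 := by positivity
  have e : (Nat.centralBinom (j + 1) : ℝ)
      = 2 * (2 * (j : ℝ) + 1) * (Nat.centralBinom j : ℝ) / ((j : ℝ) + 1) := by
    rw [eq_div_iff hj.ne']; linarith
  rw [e, pow_succ]
  field_simp
  ring

theorem bb_zero : bb 0 = 1 := by simp [bb]

theorem bb_pos (j : ℕ) : 0 < bb j := by
  unfold bb
  have : 0 < Nat.centralBinom j := Nat.centralBinom_pos j
  positivity

theorem bb_one : bb 1 = 1 / 2 := by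
  rw [bb_succ 0, bb_zero]; norm_num

theorem bb_two : bb 2 = 3 / 8 := by
  rw [bb_succ 1, bb_one]; norm_num

theorem bb_three : bb 3 = 5 / 16 := by
  rw [bb_succ 2, bb_two]; norm_num

theorem bb_four : bb 4 = 35 / 128 := by
  rw [bb_succ 3, bb_three]; norm_num

theorem bb_five : bb 5 = 63 / 256 := by
  rw [bb_succ 4, bb_four]; norm_num

theorem bb_le_half (m : ℕ) : bb (m + 1) ≤ 1 / 2 := by
  induction m with
  | zero => exact bb_one.le
  | succ n ih =>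
    rw [bb_succ (n + 1)]
    have h1 := bb_pos (n + 1)
    have h2 : (2 * ((n + 1 : ℕ) : ℝ) + 1) / (2 * ((n + 1 : ℕ) : ℝ) + 2) ≤ 1 := by
      rw [div_le_one (by positivity)]; linarith
    nlinarith

theorem bb_W (j : ℕ) : Real.Wallis.W j * (bb j ^ 2 * (2 * j + 1)) = 1 := by
  induction j with
  | zero => simp [bb_zero, Real.Wallis.W]
  | succ n ih =>
    rw [bb_succ, Real.Wallis.W_succ]
    have h1 : (0 : ℝ) < 2 * n + 1 := by positivity
    have h2 : (0 : ℝ) < 2 * n + 2 := by positivity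
    have h3 : (0 : ℝ) < 2 * n + 3 := by positivity
    have e : Real.Wallis.W n * ((2 * (n : ℝ) + 2) / (2 * n + 1) * ((2 * n + 2) / (2 * n + 3))) *
        ((bb n * ((2 * (n : ℝ) + 1) / (2 * n + 2))) ^ 2 * (2 * ((n + 1 : ℕ) : ℝ) + 1))
        = Real.Wallis.W n * (bb n ^ 2 * (2 * n + 1)) := by
      push_cast
      field_simp
      ring
    rw [e, ih]

/-- `s_j = W_j (2j+1)/(j+0.26)`, `j = n + 6`. -/
noncomputable def s (n : ℕ) : ℝ :=
  Real.Wallis.W (n + 6) * ((2 * ((n : ℝ) + 6) + 1) / ((n : ℝ) + 6 + 0.26))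

theorem s_mono : Monotone s := by
  refine monotone_nat_of_le_succ fun n => ?_
  unfold s
  have hW : 0 < Real.Wallis.W (n + 6) := Real.Wallis.W_pos _
  rw [show n + 1 + 6 = (n + 6) + 1 by ring, Real.Wallis.W_succ (n + 6)]
  push_cast
  have h1 : (0 : ℝ) < 2 * ((n : ℝ) + 6) + 1 := by positivity
  have h2 : (0 : ℝ) < 2 * ((n : ℝ) + 6) + 2 := by positivity
  have h3 : (0 : ℝ) < 2 * ((n : ℝ) + 6) + 3 := by positivity
  have h4 : (0 : ℝ) < (n : ℝ) + 6 + 0.26 := by positivity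
  have h5 : (0 : ℝ) < (n : ℝ) + 1 + 6 + 0.26 := by positivity
  rw [mul_assoc]
  refine mul_le_mul_of_nonneg_left ?_ hW.le
  rw [div_mul_div_comm, div_mul_div_comm, div_le_div_iff₀ h4 (by positivity)]
  have hn : (0 : ℝ) ≤ n := by positivity
  have key : (2 * ((n : ℝ) + 6) + 1) ^ 2 * ((n : ℝ) + 1 + 6 + 0.26)
      ≤ (2 * ((n : ℝ) + 6) + 2) ^ 2 * ((n : ℝ) + 6 + 0.26) := by
    nlinarith
  nlinarith [mul_le_mul_of_nonneg_left key h3.le]

theorem s_tendsto : Tendsto s atTop (𝓝 Real.pi) := by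
  have h1 : Tendsto (fun n : ℕ => Real.Wallis.W (n + 6)) atTop (𝓝 (Real.pi / 2)) :=
    (Real.Wallis.tendsto_W_nhds_pi_div_two).comp (tendsto_add_atTop_nat 6)
  have h2 : Tendsto (fun n : ℕ => (2 * ((n : ℝ) + 6) + 1) / ((n : ℝ) + 6 + 0.26)) atTop
      (𝓝 2) := by
    have h3 : Tendsto (fun n : ℕ => 2 + 0.48 / ((n : ℝ) + 6 + 0.26)) atTop (𝓝 (2 + 0)) := by
      refine tendsto_const_nhds.add ?_
      refine Tendsto.div_atTop tendsto_const_nhds ?_
      refine tendsto_atTop_add_const_right _ _ ?_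
      refine tendsto_atTop_add_const_right _ _ ?_
      exact tendsto_natCast_atTop_atTop
    rw [add_zero] at h3
    refine h3.congr fun n => ?_
    have h4 : (0 : ℝ) < (n : ℝ) + 6 + 0.26 := by positivity
    field_simp
    ring
  have h := h1.mul h2
  have e : Real.pi / 2 * 2 = Real.pi := by ring
  rw [e] at h
  exact h

theorem s_le (n : ℕ) : s n ≤ Real.pi := s_mono.ge_of_tendsto s_tendsto n

/-- `B(j)`. -/
theorem claimB (m : ℕ) : 0.7975 ^ 2 * (4 * ((m : ℝ) + 2) + 3) ^ 2 ≤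
    4 * (2 * ((m : ℝ) + 2) + 1) * (bb (m + 2) ^ 2 * (2 * ((m : ℝ) + 2) + 1.245) ^ 2) := by
  rcases Nat.lt_or_ge m 4 with hm | hm
  · interval_cases m
    · rw [show 0 + 2 = 2 from rfl, bb_two]; norm_num
    · rw [show 1 + 2 = 3 from rfl, bb_three]; norm_num
    · rw [show 2 + 2 = 4 from rfl, bb_four]; norm_num
    · rw [show 3 + 2 = 5 from rfl, bb_five]; norm_num
  · obtain ⟨n, rfl⟩ := Nat.exists_eq_add_of_le hm
    have hs := s_le n
    unfold s at hs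
    have hW : 0 < Real.Wallis.W (n + 6) := Real.Wallis.W_pos _
    have hb := bb_W (n + 6)
    push_cast at hb
    have e6 : 4 + n + 2 = n + 6 := by ring
    rw [e6]
    have ex : (((4 + n : ℕ) : ℝ) + 2) = (n : ℝ) + 6 := by push_cast; ring
    rw [ex]
    set x : ℝ := (n : ℝ) + 6 with hx
    have hx6 : 6 ≤ x := by rw [hx]; linarith [(Nat.cast_nonneg n : (0 : ℝ) ≤ n)]
    set w := Real.Wallis.W (n + 6) with hw
    set β := bb (n + 6) with hβ
    have h4 : (0 : ℝ) < x + 0.26 := by linarith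
    have h5 : (0 : ℝ) < 2 * x + 1 := by linarith
    -- w (2x+1) ≤ π (x+0.26)
    have h6 : w * (2 * x + 1) ≤ Real.pi * (x + 0.26) := by
      have : w * ((2 * x + 1) / (x + 0.26)) * (x + 0.26) ≤ Real.pi * (x + 0.26) :=
        mul_le_mul_of_nonneg_right hs h4.le
      have e : w * ((2 * x + 1) / (x + 0.26)) * (x + 0.26) = w * (2 * x + 1) := by
        field_simp
      linarith
    have hb2 : 0 < β ^ 2 := pow_pos (bb_pos _) 2
    -- 1 = w β² (2x+1) ≤ β² π (x+0.26)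
    have h7 : 1 ≤ β ^ 2 * (Real.pi * (x + 0.26)) := by
      have : β ^ 2 * (w * (2 * x + 1)) ≤ β ^ 2 * (Real.pi * (x + 0.26)) :=
        mul_le_mul_of_nonneg_left h6 hb2.le
      nlinarith
    have hpi : Real.pi < 3.141593 := Real.pi_lt_d6
    have h8 : 1 ≤ β ^ 2 * (3.141593 * (x + 0.26)) := by
      have : β ^ 2 * (Real.pi * (x + 0.26)) ≤ β ^ 2 * (3.141593 * (x + 0.26)) :=
        mul_le_mul_of_nonneg_left (mul_le_mul_of_nonneg_right hpi.le h4.le) hb2.le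
      linarith
    -- polynomial inequality
    have hP : 0.7975 ^ 2 * 3.141593 * (4 * x + 3) ^ 2 * (x + 0.26)
        ≤ 4 * (2 * x + 1) * (2 * x + 1.245) ^ 2 := by
      have hq : 0 ≤ 0.0308 * x ^ 2 - 0.4258 * x + 1.869 := by nlinarith [sq_nonneg (x - 6.9)]
      have hq2 : 0 ≤ x * (0.0308 * x ^ 2 - 0.4258 * x + 1.869) :=
        mul_nonneg (by linarith) hq
      have hx2 : 0 ≤ x ^ 2 := sq_nonneg _
      have hx3 : 0 ≤ x ^ 3 := by positivity
      nlinarith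
    have hP' : 0.7975 ^ 2 * (4 * x + 3) ^ 2 * (3.141593 * (x + 0.26))
        ≤ 4 * (2 * x + 1) * (2 * x + 1.245) ^ 2 := by
      have e : 0.7975 ^ 2 * (4 * x + 3) ^ 2 * (3.141593 * (x + 0.26)) =
        0.7975 ^ 2 * 3.141593 * (4 * x + 3) ^ 2 * (x + 0.26) := by ring
      rw [e]; exact hP
    have hA : 0 ≤ 0.7975 ^ 2 * (4 * x + 3) ^ 2 := by positivity
    calc 0.7975 ^ 2 * (4 * x + 3) ^ 2
        ≤ 0.7975 ^ 2 * (4 * x + 3) ^ 2 * (β ^ 2 * (3.141593 * (x + 0.26))) :=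
          le_mul_of_one_le_right hA h8
      _ = β ^ 2 * (0.7975 ^ 2 * (4 * x + 3) ^ 2 * (3.141593 * (x + 0.26))) := by ring
      _ ≤ β ^ 2 * (4 * (2 * x + 1) * (2 * x + 1.245) ^ 2) :=
          mul_le_mul_of_nonneg_left hP' hb2.le
      _ = 4 * (2 * x + 1) * (β ^ 2 * (2 * x + 1.245) ^ 2) := by ring

/-- `A(j)`, `j = m + 1`. -/
theorem claimA (m : ℕ) : 0.7975 ^ 2 * (4 * ((m : ℝ) + 1) + 5) ^ 2 ≤
    4 * (2 * ((m : ℝ) + 1) + 3) * (bb (m + 1) ^ 2 * (2 * ((m : ℝ) + 1) + 1.245) ^ 2) := by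
  rcases m with _ | n
  · rw [show 0 + 1 = 1 from rfl, bb_one]; norm_num
  · have h := claimB n
    rw [show n + 1 + 1 = n + 2 from rfl]
    have e : (((n + 1 : ℕ) : ℝ) + 1) = (n : ℝ) + 2 := by push_cast; ring
    rw [e]
    set y : ℝ := (n : ℝ) + 2 with hy
    have hy2 : 2 ≤ y := by rw [hy]; linarith [(Nat.cast_nonneg n : (0 : ℝ) ≤ n)]
    set T := bb (n + 2) ^ 2 * (2 * y + 1.245) ^ 2 with hT
    have h1 : (0 : ℝ) < 2 * y + 1 := by linarith
    have h3 : (0 : ℝ) < 2 * y + 3 := by linarith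
    -- T ≥ K (4y+3)^2 / (4 (2y+1)),  (4y+5)^2 (2y+1) ≤ (4y+3)^2 (2y+3)
    have h4 : (4 * y + 5) ^ 2 * (2 * y + 1) ≤ (4 * y + 3) ^ 2 * (2 * y + 3) := by nlinarith
    have h5 : (0.7975 ^ 2 * (4 * y + 5) ^ 2) * (2 * y + 1) ≤
        (4 * (2 * y + 3) * T) * (2 * y + 1) := by
      calc (0.7975 ^ 2 * (4 * y + 5) ^ 2) * (2 * y + 1)
          = 0.7975 ^ 2 * ((4 * y + 5) ^ 2 * (2 * y + 1)) := by ring
        _ ≤ 0.7975 ^ 2 * ((4 * y + 3) ^ 2 * (2 * y + 3)) :=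
            mul_le_mul_of_nonneg_left h4 (by positivity)
        _ = (2 * y + 3) * (0.7975 ^ 2 * (4 * y + 3) ^ 2) := by ring
        _ ≤ (2 * y + 3) * (4 * (2 * y + 1) * T) := mul_le_mul_of_nonneg_left h h3.le
        _ = (4 * (2 * y + 3) * T) * (2 * y + 1) := by ring
    exact le_of_mul_le_mul_right h5 h1

/-- the common step: from the squared inequality at `c = 1.1225` to all `c ≤ 1.1225`. -/
theorem step (c : ℝ) (hc : c ≤ 1.1225) (N D b x : ℝ) (hN : 0 < N) (hD : 0 < D) (hb : 0 < b)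
    (hb2 : b ≤ 1 / 2) (hx : 0 ≤ x) (hND : 8 * D ≤ N ^ 2)
    (hsq : 0.7975 ^ 2 * N ^ 2 ≤ 4 * D * (b ^ 2 * (x + 2.245) ^ 2)) :
    (c / √2 + 0.00377) * (N / (2 * √D)) ≤ b * (x + 2 * c) := by
  have h2 : (0 : ℝ) < √2 := by positivity
  have h2' : 1.41421 ≤ √2 := by
    apply Real.le_sqrt_of_sq_le; norm_num
  have hsD : 0 < √D := Real.sqrt_pos.2 hD
  have hsDsq : √D ^ 2 = D := Real.sq_sqrt hD.le
  set P := N / (2 * √D) with hP
  have hPpos : 0 < P := by positivity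
  -- P ≥ √2
  have hPsq : P ^ 2 = N ^ 2 / (4 * D) := by
    rw [hP, div_pow, mul_pow, hsDsq]; norm_num
  have hP2 : √2 ≤ P := by
    apply Real.sqrt_le_iff.2
    refine ⟨hPpos.le, ?_⟩
    rw [hPsq, le_div_iff₀ (by positivity)]; linarith
  -- P/√2 ≥ 1 ≥ 2b
  have hslope : 2 * b ≤ P / √2 := by
    have : 1 ≤ P / √2 := by rw [le_div_iff₀ h2]; linarith
    linarith
  -- value at 1.1225
  have hval : 0.7975 * P ≤ b * (x + 2.245) := by
    have hpos : 0 ≤ b * (x + 2.245) := by positivity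
    apply le_of_sq_le_sq _ hpos
    rw [mul_pow, hPsq, mul_pow]
    rw [mul_div_assoc', div_le_iff₀ (by positivity)]
    linarith
  have hnum : 1.1225 / √2 + 0.00377 ≤ 0.7975 := by
    have : 1.1225 / √2 ≤ 0.79373 := by
      rw [div_le_iff₀ h2]; nlinarith
    linarith
  have hval' : (1.1225 / √2 + 0.00377) * P ≤ b * (x + 2.245) :=
    le_trans (mul_le_mul_of_nonneg_right hnum hPpos.le) hval
  have e : (c / √2 + 0.00377) * P
      = (1.1225 / √2 + 0.00377) * P - (1.1225 - c) * (P / √2) := by ring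
  rw [e]
  have : (1.1225 - c) * (2 * b) ≤ (1.1225 - c) * (P / √2) :=
    mul_le_mul_of_nonneg_left hslope (by linarith)
  nlinarith

theorem gw : GW := by
  intro c hc m
  have hm : (0 : ℝ) ≤ m := Nat.cast_nonneg m
  constructor
  · have hA := claimA m
    have h := step c hc (4 * ((m : ℝ) + 2) + 1) (2 * ((m : ℝ) + 2) + 1) (bb (m + 1))
      (2 * (m : ℝ) + 1) (by positivity) (by positivity) (bb_pos _) (bb_le_half m)
      (by positivity) (by nlinarith) ?_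
    · exact h
    · have e1 : 4 * ((m : ℝ) + 2) + 1 = 4 * ((m : ℝ) + 1) + 5 := by ring
      have e2 : 2 * ((m : ℝ) + 2) + 1 = 2 * ((m : ℝ) + 1) + 3 := by ring
      have e3 : 2 * (m : ℝ) + 1 + 2.245 = 2 * ((m : ℝ) + 1) + 1.245 := by ring
      rw [e1, e2, e3]; exact hA
  · have hB := claimB m
    have h := step c hc (4 * ((m : ℝ) + 3) - 1) (2 * ((m : ℝ) + 3) - 1) (bb (m + 2))
      (2 * ((m : ℝ) + 1) + 1) (by linarith) (by linarith) (bb_pos _) (bb_le_half (m + 1))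
      (by positivity) (by nlinarith) ?_
    · exact h
    · have e1 : 4 * ((m : ℝ) + 3) - 1 = 4 * ((m : ℝ) + 2) + 3 := by ring
      have e2 : 2 * ((m : ℝ) + 3) - 1 = 2 * ((m : ℝ) + 2) + 1 := by ring
      have e3 : 2 * ((m : ℝ) + 1) + 1 + 2.245 = 2 * ((m : ℝ) + 2) + 1.245 := by ring
      rw [e1, e2, e3]; exact hB

end Pool.Agent.Helper31.NO
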